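import Pool.Agent.H48.RG.Targets
import Pool.Agent.H86.RG.Targets

/-! Row D_POT of the board reg: approximate potentials. -/

set_option autoImplicit false

namespace Pool.Agent.H44.RG

open MeasureTheory Metric Set Filter Topology Pool.Agent.H87.SN Pool.Agent.H48.RG
open Pool.Agent.H86.RG (dd lap IsKer dil cv T_KER T_DIL T_DCV)
open scoped ContDiff RealInnerProductSpace ENNReal

variable {n : ℕ}

theorem vol_ball (x : E n) {r : ℝ} (hr : 0 < r) :
    (volume (ball x r)).toReal = r ^ n * (volume (ball (0 : E n) 1)).toReal := by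
  rw [Measure.addHaar_ball_of_pos volume x hr, ENNReal.toReal_mul,
    ENNReal.toReal_ofReal (by positivity), finrank_euclideanSpace_fin]

theorem int_abs_le {f : E n → ℝ} (hb : ∀ x, |f x| ≤ 1) (x : E n) {r : ℝ}
    (hr : 0 < r) :
    ∫ y in ball x r, |f y| ≤ r ^ n * (volume (ball (0 : E n) 1)).toReal := by
  rw [← vol_ball x hr]
  have h := norm_setIntegral_le_of_norm_le_const (μ := volume) (s := ball x r)
    (f := fun y => |f y|) (C := 1) measure_ball_lt_top (fun y _ => by
      rw [Real.norm_eq_abs, abs_abs]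
      exact hb y)
  rw [one_mul] at h
  exact (le_abs_self _).trans h

theorem exists_bd {k : E n → ℝ} (hk : Continuous k) (h0 : ∀ x, 1 ≤ ‖x‖ → k x = 0) :
    ∃ M : ℝ, 0 ≤ M ∧ ∀ x, |k x| ≤ M := by
  have hc : HasCompactSupport k := HasCompactSupport.intro (isCompact_closedBall (0 : E n) 1)
    fun x hx => h0 x (by
      rw [mem_closedBall_zero_iff, not_le] at hx
      exact hx.le)
  obtain ⟨C, hC⟩ := hk.bounded_above_of_compact_support hc
  exact ⟨C, (norm_nonneg _).trans (hC 0), fun x => hC x⟩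

theorem cv_integrable {k g : E n → ℝ} (hk : Continuous k) (hg : Continuous g)
    (hc : HasCompactSupport g) (x : E n) : Integrable (fun y => k (x - y) * g y) := by
  refine Continuous.integrable_of_hasCompactSupport ?_ hc.mul_left
  exact (hk.comp (continuous_const.sub continuous_id)).mul hg

theorem dil_cont {k : E n → ℝ} (hk : Continuous k) (t : ℝ) : Continuous (dil k t) :=
  continuous_const.mul (hk.comp (continuous_const_smul _))

/-- the scales -/
noncomputable def tk (k : ℕ) : ℝ := (1 / 2) ^ (k + 1)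

theorem tk_pos (k : ℕ) : 0 < tk k := by unfold tk; positivity

theorem tk_half (k : ℕ) : tk k / 2 = tk (k + 1) := by
  unfold tk
  rw [pow_succ _ (k + 1)]
  ring

theorem tk_le (k : ℕ) : tk k ≤ 1 / 2 := by
  unfold tk
  calc (1 / 2 : ℝ) ^ (k + 1) ≤ (1 / 2) ^ 1 :=
        pow_le_pow_of_le_one (by norm_num) (by norm_num) (by omega)
    _ = 1 / 2 := by norm_num

theorem tk_sum (N : ℕ) : ∑ k ∈ Finset.range N, tk k = 1 - (1 / 2) ^ N := by
  induction N with
  | zero => simp
  | succ N ih =>
    rw [Finset.sum_range_succ, ih]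
    unfold tk
    rw [pow_succ]
    ring

/-- the potential -/
noncomputable def XX (ζ f : E n → ℝ) (N : ℕ) (x : E n) : ℝ :=
  ∑ k ∈ Finset.range N, tk k ^ 2 * cv (dil ζ (tk k)) f x

theorem dd_sum (i : Fin n) (N : ℕ) (c : ℕ → ℝ) (F : ℕ → E n → ℝ) (hF : ∀ k, ContDiff ℝ ∞ (F k)) :
    dd i (fun x => ∑ k ∈ Finset.range N, c k * F k x) =
      fun x => ∑ k ∈ Finset.range N, c k * dd i (F k) x := by
  funext x
  unfold dd
  have hd : ∀ k, DifferentiableAt ℝ (F k) x := fun k =>
    ((hF k).differentiable (by simp)) x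
  rw [fderiv_fun_sum fun k _ => (hd k).const_mul (c k)]
  rw [sum_apply]
  refine Finset.sum_congr rfl fun k _ => ?_
  rw [fderiv_const_mul (hd k)]
  rfl

theorem cv_zero {k g : E n → ℝ} {t θ : ℝ} (hk : ∀ x, t ≤ ‖x‖ → k x = 0)
    (hg : ∀ x, x ∉ ball (0 : E n) θ → g x = 0) {x : E n} (hx : t + θ ≤ ‖x‖) : cv k g x = 0 := by
  unfold cv
  have h : ∀ y, k (x - y) * g y = 0 := by
    intro y
    by_cases hy : y ∈ ball (0 : E n) θ
    · rw [hk (x - y), zero_mul]
      rw [mem_ball_zero_iff] at hy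
      have := norm_sub_norm_le x y
      linarith
    · rw [hg y hy, mul_zero]
  simp only [h, integral_zero]

theorem norm_fderiv_le {X : E n → ℝ} {x : E n} {B : Fin n → ℝ}
    (hB : ∀ i, |dd i X x| ≤ B i) : ‖fderiv ℝ X x‖ ≤ ∑ i, B i := by
  refine ContinuousLinearMap.opNorm_le_bound _
    (Finset.sum_nonneg fun i _ => (abs_nonneg _).trans (hB i)) fun v => ?_
  have hv : v = ∑ i, v i • bv i := by
    have h := (EuclideanSpace.basisFun (Fin n) ℝ).sum_repr v
    refine h.symm.trans (Finset.sum_congr rfl fun i _ => ?_)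
    rw [EuclideanSpace.basisFun_apply]
    rfl
  have h1 : fderiv ℝ X x v = ∑ i, v i * dd i X x := by
    conv_lhs => rw [hv]
    rw [map_sum]
    refine Finset.sum_congr rfl fun i _ => ?_
    rw [map_smul]
    rfl
  rw [h1, Real.norm_eq_abs]
  refine (Finset.abs_sum_le_sum_abs _ _).trans ?_
  rw [Finset.sum_mul]
  refine Finset.sum_le_sum fun i _ => ?_
  rw [abs_mul, mul_comm]
  have h2 : |v i| ≤ ‖v‖ := by
    have := EuclideanSpace.norm_eq v
    rw [← Real.norm_eq_abs]
    exact PiLp.norm_apply_le v i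
  exact mul_le_mul (hB i) h2 (abs_nonneg _) ((abs_nonneg _).trans (hB i))

theorem pf_POT (hK : Pool.Agent.H86.RG.T_KER) (hD : Pool.Agent.H86.RG.T_DIL)
    (hC : Pool.Agent.H86.RG.T_DCV) : T_POT := by
  intro n hn
  obtain ⟨φ, ζ, hker⟩ := hK n hn
  obtain ⟨Mφ, hMφ0, hMφ⟩ := exists_bd hker.sφ.continuous hker.zφ
  have hdd := fun i => (hD n ζ 1 one_pos hker.sζ hker.zζ).2.2.2.2 i
  have hM : ∀ i : Fin n, ∃ M : ℝ, 0 ≤ M ∧ ∀ x, |dd i ζ x| ≤ M := fun i =>
    exists_bd (hdd i).1.continuous (hdd i).2.1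
  choose Mz hMz0 hMz using hM
  have hddd : ∀ i, ContDiff ℝ ∞ (dd i (dd i ζ)) ∧ (∀ x, 1 ≤ ‖x‖ → dd i (dd i ζ) x = 0) := fun i =>
    ⟨((hD n (dd i ζ) 1 one_pos (hdd i).1 (hdd i).2.1).2.2.2.2 i).1,
      ((hD n (dd i ζ) 1 one_pos (hdd i).1 (hdd i).2.1).2.2.2.2 i).2.1⟩
  obtain ⟨om, hom⟩ : ∃ om : ℝ, om = (volume (ball (0 : E n) 1)).toReal := ⟨_, rfl⟩
  have hom0 : 0 ≤ om := by rw [hom]; exact ENNReal.toReal_nonneg
  have hs0 : 0 ≤ ∑ i, Mz i * om := Finset.sum_nonneg fun i _ => mul_nonneg (hMz0 i) hom0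
  have hp0 : 0 ≤ Mφ * 2 ^ n * om := by positivity
  refine ⟨Mφ * 2 ^ n * om + 1 + ∑ i, Mz i * om, by linarith, ?_⟩
  intro θ hθ hθ4 f hf hfb
  obtain ⟨hfs, hfc, hfsup⟩ := hf
  have hfcont : Continuous f := hfs.continuous
  have hfi : Integrable f := hfcont.integrable_of_hasCompactSupport hfc
  have hf0 : ∀ x, x ∉ ball (0 : E n) θ → f x = 0 := fun x hx =>
    image_eq_zero_of_notMem_tsupport fun h => hx (hfsup h)
  have hθn : 0 < θ ^ n := by positivity
  -- uniform continuity
  obtain ⟨δ, hδ0, hδ⟩ : ∃ δ : ℝ, 0 < δ ∧ ∀ x y : E n, dist x y < δ → dist (f x) (f y) < θ ^ n := by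
    have h1 := hfc.uniformContinuous_of_continuous hfcont
    exact Metric.uniformContinuous_iff.1 h1 (θ ^ n) hθn |>.imp fun δ h => ⟨h.1, fun x y => @h.2 x y⟩
  obtain ⟨N, hN⟩ : ∃ N : ℕ, tk N < δ := by
    obtain ⟨N, hN⟩ := exists_pow_lt_of_lt_one hδ0 (show (1 / 2 : ℝ) < 1 by norm_num)
    refine ⟨N, lt_of_le_of_lt ?_ hN⟩
    unfold tk
    exact pow_le_pow_of_le_one (by norm_num) (by norm_num) (Nat.le_succ N)
  have hdz : ∀ k, ContDiff ℝ ∞ (cv (dil ζ (tk k)) f) ∧
      (∀ i x, dd i (cv (dil ζ (tk k)) f) x = (tk k)⁻¹ * cv (dil (dd i ζ) (tk k)) f x) := fun k =>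
    ⟨(hC n ζ f (tk k) (tk_pos k) hker.sζ hker.zζ hfi).1,
      (hC n ζ f (tk k) (tk_pos k) hker.sζ hker.zζ hfi).2.1⟩
  have hdz2 : ∀ k i, ContDiff ℝ ∞ (cv (dil (dd i ζ) (tk k)) f) ∧
      (∀ x, dd i (cv (dil (dd i ζ) (tk k)) f) x =
        (tk k)⁻¹ * cv (dil (dd i (dd i ζ)) (tk k)) f x) ∧
      ∀ x, |cv (dil (dd i ζ) (tk k)) f x| ≤ Mz i * ((tk k) ^ n)⁻¹ * ∫ y in ball x (tk k), |f y| :=
    fun k i => by
      have h := hC n (dd i ζ) f (tk k) (tk_pos k) (hdd i).1 (hdd i).2.1 hfi
      exact ⟨h.1, h.2.1 i, fun x => h.2.2 (Mz i) x (hMz i)⟩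
  -- the derivatives
  have hd1 : ∀ i, dd i (XX ζ f N) = fun x => ∑ k ∈ Finset.range N,
      tk k * cv (dil (dd i ζ) (tk k)) f x := by
    intro i
    have h := dd_sum i N (fun k => tk k ^ 2) (fun k => cv (dil ζ (tk k)) f) fun k => (hdz k).1
    have h2 : dd i (XX ζ f N) = fun x => ∑ k ∈ Finset.range N,
      tk k ^ 2 * dd i (cv (dil ζ (tk k)) f) x := h
    rw [h2]
    funext x
    refine Finset.sum_congr rfl fun k _ => ?_
    rw [(hdz k).2 i x]
    have := tk_pos k
    field_simp
  have hd2 : ∀ i, dd i (dd i (XX ζ f N)) = fun x => ∑ k ∈ Finset.range N,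
      cv (dil (dd i (dd i ζ)) (tk k)) f x := by
    intro i
    rw [hd1 i, dd_sum i N tk (fun k => cv (dil (dd i ζ) (tk k)) f) fun k => (hdz2 k i).1]
    funext x
    refine Finset.sum_congr rfl fun k _ => ?_
    rw [(hdz2 k i).2.1 x]
    have := tk_pos k
    field_simp
  have hlap : ∀ x, lap (XX ζ f N) x = cv (dil φ (tk N)) f x - cv (dil φ (tk 0)) f x := by
    intro x
    have h1 : lap (XX ζ f N) x = ∑ k ∈ Finset.range N,
        (cv (dil φ (tk (k + 1))) f x - cv (dil φ (tk k)) f x) := by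
      unfold lap
      have h2 : ∀ i, dd i (dd i (XX ζ f N)) x = ∑ k ∈ Finset.range N,
        cv (dil (dd i (dd i ζ)) (tk k)) f x := fun i => by rw [hd2 i]
      simp only [h2]
      rw [Finset.sum_comm]
      refine Finset.sum_congr rfl fun k _ => ?_
      unfold cv
      rw [← integral_finsetSum _ fun i _ =>
        cv_integrable (dil_cont (hddd i).1.continuous _) hfcont hfc x,
        ← integral_sub (cv_integrable (dil_cont hker.sφ.continuous _) hfcont hfc x)
          (cv_integrable (dil_cont hker.sφ.continuous _) hfcont hfc x)]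
      refine integral_congr_ae (ae_of_all _ fun y => ?_)
      simp only
      rw [← Finset.sum_mul, ← sub_mul]
      congr 1
      have h3 := hker.tel ((tk k)⁻¹ • (x - y))
      unfold lap at h3
      unfold dil
      rw [← Finset.mul_sum, ← h3, ← tk_half k, div_pow, inv_div, smul_smul]
      have h4 : (2 : ℝ) * (tk k)⁻¹ = 2 / tk k := by ring
      rw [h4]
      have := tk_pos k
      have h5 : ((tk k / 2)⁻¹ : ℝ) = 2 / tk k := by rw [inv_div]
      rw [h5]
      field_simp
    rw [h1, Finset.sum_range_sub (fun k => cv (dil φ (tk k)) f x)]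
  have hsmooth : ContDiff ℝ ∞ (XX ζ f N) := by
    unfold XX
    exact ContDiff.sum fun k _ => contDiff_const.mul (hdz k).1
  refine ⟨XX ζ f N, hsmooth, ?_, ?_, ?_⟩
  · refine closure_minimal ?_ isClosed_closedBall
    intro x hx
    rw [Function.mem_support] at hx
    by_contra h
    apply hx
    rw [mem_closedBall_zero_iff, not_le] at h
    unfold XX
    refine Finset.sum_eq_zero fun k _ => ?_
    rw [cv_zero (fun x hx => (hD n ζ (tk k) (tk_pos k) hker.sζ hker.zζ).2.1 x hx) hf0
      (by have := tk_le k; linarith), mul_zero]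
  · intro x
    have h1 : ∀ i, |dd i (XX ζ f N) x| ≤ Mz i * om := by
      intro i
      rw [hd1 i]
      calc |∑ k ∈ Finset.range N, tk k * cv (dil (dd i ζ) (tk k)) f x|
          ≤ ∑ k ∈ Finset.range N, |tk k * cv (dil (dd i ζ) (tk k)) f x| :=
            Finset.abs_sum_le_sum_abs _ _
        _ ≤ ∑ k ∈ Finset.range N, tk k * (Mz i * om) := by
            refine Finset.sum_le_sum fun k _ => ?_
            have hk := tk_pos k
            rw [abs_mul, abs_of_pos hk]
            refine mul_le_mul_of_nonneg_left ?_ hk.le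
            refine ((hdz2 k i).2.2 x).trans ?_
            calc Mz i * (tk k ^ n)⁻¹ * ∫ y in ball x (tk k), |f y|
                ≤ Mz i * (tk k ^ n)⁻¹ * (tk k ^ n * om) := by
                  refine mul_le_mul_of_nonneg_left ?_ (mul_nonneg (hMz0 i) (by positivity))
                  rw [hom]
                  exact int_abs_le hfb x hk
              _ = Mz i * om := by field_simp
        _ = (1 - (1 / 2) ^ N) * (Mz i * om) := by rw [← Finset.sum_mul, tk_sum]
        _ ≤ 1 * (Mz i * om) := by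
            refine mul_le_mul_of_nonneg_right ?_ (mul_nonneg (hMz0 i) hom0)
            have : (0 : ℝ) < (1 / 2) ^ N := by positivity
            linarith
        _ = Mz i * om := one_mul _
    have h2 := norm_fderiv_le h1
    linarith
  · intro x
    have e1 : lp (XX ζ f N) x = lap (XX ζ f N) x := rfl
    rw [e1, hlap x]
    -- the small scale
    have hkN := tk_pos N
    have hone : ∫ y, dil φ (tk N) (x - y) = 1 := by
      rw [integral_sub_left_eq_self (fun z => dil φ (tk N) z) volume x,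
        (hD n φ (tk N) hkN hker.sφ hker.zφ).2.2.2.1, hker.one]
    have hdpos : ∀ z, 0 ≤ dil φ (tk N) z := fun z => by
      unfold dil
      exact mul_nonneg (by positivity) (hker.pos _)
    have hdi : Integrable (fun y => dil φ (tk N) (x - y)) := by
      by_contra h
      rw [integral_undef h] at hone
      exact zero_ne_one hone
    have hsm : |cv (dil φ (tk N)) f x - f x| ≤ θ ^ n := by
      have h1 : cv (dil φ (tk N)) f x - f x = ∫ y, dil φ (tk N) (x - y) * (f y - f x) := by
        have h2 : f x = ∫ y, dil φ (tk N) (x - y) * f x := by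
          rw [integral_mul_const, hone, one_mul]
        unfold cv
        conv_lhs => rw [h2]
        rw [← integral_sub (cv_integrable (dil_cont hker.sφ.continuous _) hfcont hfc x)
          (hdi.mul_const _)]
        refine integral_congr_ae (ae_of_all _ fun y => ?_)
        simp only
        ring
      rw [h1]
      calc |∫ y, dil φ (tk N) (x - y) * (f y - f x)|
          ≤ ∫ y, dil φ (tk N) (x - y) * θ ^ n := by
            rw [← Real.norm_eq_abs]
            refine norm_integral_le_of_norm_le (hdi.mul_const _) (ae_of_all _ fun y => ?_)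
            rw [Real.norm_eq_abs, abs_mul, abs_of_nonneg (hdpos _)]
            by_cases hxy : dist y x < δ
            · refine mul_le_mul_of_nonneg_left ?_ (hdpos _)
              have := hδ y x hxy
              rw [Real.dist_eq] at this
              exact this.le
            · have h3 : dil φ (tk N) (x - y) = 0 := by
                refine (hD n φ (tk N) hkN hker.sφ hker.zφ).2.1 _ ?_
                rw [dist_comm, dist_eq_norm, not_lt] at hxy
                linarith
              rw [h3, zero_mul, zero_mul]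
        _ = θ ^ n := by rw [integral_mul_const, hone, one_mul]
    -- the large scale
    have hlg : |cv (dil φ (tk 0)) f x| ≤ Mφ * 2 ^ n * om * θ ^ n := by
      have h1 := (hC n φ f (tk 0) (tk_pos 0) hker.sφ hker.zφ hfi).2.2 Mφ x hMφ
      refine h1.trans ?_
      have h2 : ∫ y in ball x (tk 0), |f y| ≤ θ ^ n * om := by
        calc ∫ y in ball x (tk 0), |f y| ≤ ∫ y, |f y| :=
              setIntegral_le_integral hfi.abs (ae_of_all _ fun y => abs_nonneg _)
          _ = ∫ y in ball (0 : E n) θ, |f y| := by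
              rw [setIntegral_eq_integral_of_forall_compl_eq_zero]
              intro y hy
              rw [hf0 y hy, abs_zero]
          _ ≤ θ ^ n * om := by
              rw [hom]
              exact int_abs_le hfb 0 hθ
      have h3 : ((tk 0) ^ n)⁻¹ = 2 ^ n := by
        unfold tk
        rw [zero_add, pow_one, one_div, inv_pow, inv_inv]
      rw [h3]
      calc Mφ * 2 ^ n * ∫ y in ball x (tk 0), |f y| ≤ Mφ * 2 ^ n * (θ ^ n * om) :=
            mul_le_mul_of_nonneg_left h2 (by positivity)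
        _ = _ := by ring
    calc |cv (dil φ (tk N)) f x - cv (dil φ (tk 0)) f x - f x|
        = |(cv (dil φ (tk N)) f x - f x) - cv (dil φ (tk 0)) f x| := by
          congr 1
          ring
      _ ≤ |cv (dil φ (tk N)) f x - f x| + |cv (dil φ (tk 0)) f x| := abs_sub _ _
      _ ≤ θ ^ n + Mφ * 2 ^ n * om * θ ^ n := add_le_add hsm hlg
      _ = (Mφ * 2 ^ n * om + 1) * θ ^ n := by ring
      _ ≤ (Mφ * 2 ^ n * om + 1 + ∑ i, Mz i * om) * θ ^ n :=
          mul_le_mul_of_nonneg_right (by linarith) hθn.le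

end Pool.Agent.H44.RG
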